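import Pool.Agent.V7H47.LB.NINEa

set_option autoImplicit false
set_option maxHeartbeats 4000000

open Real Set MeasureTheory

namespace Pool.Agent.V7H47.LB

open Pool.Agent.V7H47.TC (Plane)

theorem t_NINE (hMIX : S_MIX) : S_NINE := by
  intro K r d₁ d₂ d₃ p₁ p₂ p₃ γ₁ γ₂ γ₃ hK hc hr hball F1 F2 F3 o1 o2 o3 u1 u2 u3 m₁ n₁ m₂ n₂ m₃ n₃
    hm1 hn1 hm2 hn2 hm3 hn3
  obtain ⟨a0, a1, a2, a3⟩ := F1
  obtain ⟨b0, b1, b2, b3⟩ := F2
  obtain ⟨c0, c1, c2, c3⟩ := F3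
  have ac : 0 < cos γ₁ := cos_pos_of_mem_Ioo ⟨by linarith, a1⟩
  have bc : 0 < cos γ₂ := cos_pos_of_mem_Ioo ⟨by linarith, b1⟩
  have cc : 0 < cos γ₃ := cos_pos_of_mem_Ioo ⟨by linarith, c1⟩
  have d1 : d₁ = r / cos γ₁ := by rw [eq_div_iff ac.ne', a2]
  have d2 : d₂ = r / cos γ₂ := by rw [eq_div_iff bc.ne', b2]
  have d3 : d₃ = r / cos γ₃ := by rw [eq_div_iff cc.ne', c2]
  unfold eta at u1 u2 u3
  have hsupp : ∀ t, ∃ x ∈ K, r ≤ D t x := by
    intro t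
    refine ⟨pol r t, hball (N.pol_mem_ball hr t), ?_⟩
    rw [N.D_pol', sub_self, cos_zero, mul_one]
  have hpt : ∀ t, pol r t ∈ K := fun t => hball (N.pol_mem_ball hr t)
  have h := N.gen hMIX 9 K hK hc r hr hball
    (N.bb (p₁ - γ₁) (p₁ + γ₁) (p₂ - γ₂) (p₂ + γ₂) (p₃ - γ₃) (p₃ + γ₃) (p₁ - γ₁ + 2 * π))
    ?_ ?_ ?_ ?_ ?_ ?_ ?_ ?_ ?_ ![r + m₁, r + n₁, r, r + m₂, r + n₂, r, r + m₃, r + n₃, r] ?_
  · refine le_trans (ENNReal.ofReal_le_ofReal (le_of_eq ?_)) h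
    simp only [Fin.sum_univ_succ, N.bb]
    simp
    have t1 : d₁ * sin γ₁ = r * tan γ₁ := by rw [d1, tan_eq_sin_div_cos]; ring
    have t2 : d₂ * sin γ₂ = r * tan γ₂ := by rw [d2, tan_eq_sin_div_cos]; ring
    have t3 : d₃ * sin γ₃ = r * tan γ₃ := by rw [d3, tan_eq_sin_div_cos]; ring
    rw [t1, t2, t3]
    have e3 : eta p₃ γ₃ (p₁ + 2 * π) γ₁ = (p₁ - γ₁ + 2 * π - (p₃ + γ₃)) / 2 := by
      unfold eta; ring
    rw [e3]
    unfold eta
    ring
  · intro i j hij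
    unfold N.bb
    split_ifs <;> first | linarith | (exfalso; omega)
  · simp [N.bb]
  · simp [N.bb]
  · simp [N.bb]
  · intro k
    unfold N.bb
    split_ifs <;> first | linarith [pi_pos] | (exfalso; omega)
  · intro k hk
    interval_cases k <;> simp [N.bb]
  · intro k hk
    interval_cases k <;> simp [N.bb]
  · intro k hk
    interval_cases k <;> simp [N.bb]
  · intro k hk
    interval_cases k <;> simp [N.bb]
    all_goals first
      | exact hpt _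
      | (rw [← d1]; exact a3)
      | (rw [← d2]; exact b3)
      | (rw [← d3]; exact c3)
  · intro k
    fin_cases k <;> simp [N.bb]
    all_goals first
      | exact hm1
      | exact hn1
      | exact hm2
      | exact hn2
      | exact hm3
      | exact hn3
      | exact hsupp _

end Pool.Agent.V7H47.LB
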