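import Pool.Agent.V7H47.TC.Geo

/-!
# Lower bound 0.1566 for convex translation covers of closed unit curves: pieces

Notation: `D t x` = height of `x` in direction `t` (angle), `pol d t` = point with polar coordinates.
-/

set_option autoImplicit false

open Real Set MeasureTheory

namespace Pool.Agent.V7H47.LB

open Pool.Agent.V7H47.TC (Plane IsClosedWorm IsTranslationCover)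

/-- height in direction `t` -/
noncomputable def D (t : ℝ) (x : Plane) : ℝ := cos t * x 0 + sin t * x 1

/-- polar coordinates -/
noncomputable def pol (d t : ℝ) : Plane := !₂[d * cos t, d * sin t]

/-- widths at least `1/2` -/
def Wide (K : Set Plane) : Prop := ∀ t : ℝ, ∃ x ∈ K, ∃ y ∈ K, 1 / 2 ≤ D t x - D t y

/-- TRI: a cover contains a translate of every triangle (also degenerate) of perimeter 1. -/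
def S_TRI : Prop := ∀ K : Set Plane, IsTranslationCover K → ∀ p q r : Plane,
  dist p q + dist q r + dist r p = 1 → ∃ v : Plane, p + v ∈ K ∧ q + v ∈ K ∧ r + v ∈ K

/-- WID: from TRI with `p = 0`, `q = pol (1/2) t`, `r = p`. -/
def S_WID : Prop := ∀ K : Set Plane, IsTranslationCover K → Wide K

/-- ACU: acute triples of directions. -/
def S_ACU : Prop := ∀ K : Set Plane, IsTranslationCover K → ∀ a b c : ℝ,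
  a + π / 2 < b → b + π / 2 < c → c + π / 2 < a + 2 * π →
  ∀ h₁ h₂ h₃ : ℝ, (∀ x ∈ K, D a x ≤ h₁) → (∀ x ∈ K, D b x ≤ h₂) → (∀ x ∈ K, D c x ≤ h₃) →
    1 / 2 ≤ sin (c - b) * h₁ + sin (a + 2 * π - c) * h₂ + sin (b - a) * h₃

/-- three directions with gaps less than `π` -/
def Gaps (a b e : ℝ) : Prop := a < b ∧ b < a + π ∧ b < e ∧ e < b + π ∧ e < a + 2 * π ∧
  a + 2 * π < e + π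

/-- INC: a largest inscribed circle and its contact directions. -/
def S_INC : Prop := ∀ K : Set Plane, IsCompact K → Convex ℝ K → Wide K →
  ∃ (c : Plane) (r : ℝ), 0 < r ∧ Metric.closedBall c r ⊆ K ∧
    ((∃ t : ℝ, (∀ x ∈ K, D t x ≤ D t c + r) ∧ ∀ x ∈ K, D t c - r ≤ D t x) ∨
      ∃ a b e : ℝ, Gaps a b e ∧ (∀ x ∈ K, D a x ≤ D a c + r) ∧ (∀ x ∈ K, D b x ≤ D b c + r) ∧
        ∀ x ∈ K, D e x ≤ D e c + r)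

/-- endpoints of the edge number `i` -/
noncomputable def ea (t c α : ℝ) : Plane := pol c t + pol α (t + π / 2)

/-- MIX: edges on lines `D (t i) x = c i`, between the tangential coordinates `α i < β i`; `Q i` a
support point of `K` in direction `t i`. The area of `K` is at least the mixed area. -/
def S_MIX : Prop := ∀ (n : ℕ) (K : Set Plane), IsCompact K → Convex ℝ K → (0 : Plane) ∈ K →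
  ∀ (t c α β : Fin n → ℝ) (Q : Fin n → Plane),
  (∀ i, Q i ∈ K ∧ ∀ x ∈ K, D (t i) x ≤ D (t i) (Q i)) →
  (∀ i, 0 < c i ∧ α i < β i ∧ ea (t i) (c i) (α i) ∈ K ∧ ea (t i) (c i) (β i) ∈ K) →
  (∀ i j, D (t i) (ea (t j) (c j) (α j)) ≤ c i ∧ D (t i) (ea (t j) (c j) (β j)) ≤ c i) →
  (∀ i j, i ≠ j → D (t i) (ea (t j) (c j) (α j)) < c i ∨ D (t i) (ea (t j) (c j) (β j)) < c i ∨
    (cos (t i) = cos (t j) ∧ sin (t i) = sin (t j) ∧ Q i = Q j ∧ (β i ≤ α j ∨ β j ≤ α i))) →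
  ENNReal.ofReal (∑ i, (β i - α i) * D (t i) (Q i) / 2) ≤ volume K

/-- the three far points: `pol d p` with half angle `γ` of the tangents to the circle -/
def Far (K : Set Plane) (r d p γ : ℝ) : Prop :=
  0 < γ ∧ γ < π / 2 ∧ d * cos γ = r ∧ pol d p ∈ K

/-- GEO: the far points and their order. -/
def S_GEO : Prop := ∀ (K : Set Plane) (r a b e : ℝ), 0 < r → r < 1 / 4 →
  Metric.closedBall 0 r ⊆ K → Wide K → Gaps a b e →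
  (∀ x ∈ K, D a x ≤ r) → (∀ x ∈ K, D b x ≤ r) → (∀ x ∈ K, D e x ≤ r) →
  ∃ d₁ d₂ d₃ p₁ p₂ p₃ γ₁ γ₂ γ₃ : ℝ,
    Far K r d₁ p₁ γ₁ ∧ Far K r d₂ p₂ γ₂ ∧ Far K r d₃ p₃ γ₃ ∧
    1 / 2 - r ≤ d₁ ∧ 1 / 2 - r ≤ d₂ ∧ 1 / 2 - r ≤ d₃ ∧
    a + γ₁ ≤ p₁ ∧ p₁ + γ₁ ≤ b ∧ b + γ₂ ≤ p₂ ∧ p₂ + γ₂ ≤ e ∧ e + γ₃ ≤ p₃ ∧ p₃ + γ₃ ≤ a + 2 * π

/-- the free half angles between consecutive tangent points -/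
noncomputable def eta (p γ p' γ' : ℝ) : ℝ := ((p' - γ') - (p + γ)) / 2

/-- NINE: area of `K` from the polygon with nine vertices (six tangent points, three far points). -/
def S_NINE : Prop := ∀ (K : Set Plane) (r d₁ d₂ d₃ p₁ p₂ p₃ γ₁ γ₂ γ₃ : ℝ),
  IsCompact K → Convex ℝ K → 0 < r → Metric.closedBall 0 r ⊆ K →
  Far K r d₁ p₁ γ₁ → Far K r d₂ p₂ γ₂ → Far K r d₃ p₃ γ₃ →
  p₁ + γ₁ ≤ p₂ - γ₂ → p₂ + γ₂ ≤ p₃ - γ₃ → p₃ + γ₃ ≤ p₁ - γ₁ + 2 * π →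
  eta p₁ γ₁ p₂ γ₂ < π / 2 → eta p₂ γ₂ p₃ γ₃ < π / 2 → eta p₃ γ₃ (p₁ + 2 * π) γ₁ < π / 2 →
  ∀ m₁ n₁ m₂ n₂ m₃ n₃ : ℝ,
  (∃ x ∈ K, r + m₁ ≤ D (p₁ - γ₁) x) → (∃ x ∈ K, r + n₁ ≤ D (p₁ + γ₁) x) →
  (∃ x ∈ K, r + m₂ ≤ D (p₂ - γ₂) x) → (∃ x ∈ K, r + n₂ ≤ D (p₂ + γ₂) x) →
  (∃ x ∈ K, r + m₃ ≤ D (p₃ - γ₃) x) → (∃ x ∈ K, r + n₃ ≤ D (p₃ + γ₃) x) →
  ENNReal.ofReal (r * (d₁ * sin γ₁ + d₂ * sin γ₂ + d₃ * sin γ₃) +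
    r ^ 2 * (sin (eta p₁ γ₁ p₂ γ₂) + sin (eta p₂ γ₂ p₃ γ₃) + sin (eta p₃ γ₃ (p₁ + 2 * π) γ₁)) +
    (d₁ * sin γ₁ * (m₁ + n₁) + d₂ * sin γ₂ * (m₂ + n₂) + d₃ * sin γ₃ * (m₃ + n₃)) / 2) ≤ volume K

/-- the function in W2 -/
noncomputable def phi (η : ℝ) : ℝ := √3 / 4 + √3 / 2 * cos η + (1 - cos η) ^ 2 / 16

/-- W2: from ACU applied to the triples (tangent direction, two other contact directions). -/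
def S_W2 : Prop := ∀ (K : Set Plane) (r a b e d₁ d₂ d₃ p₁ p₂ p₃ γ₁ γ₂ γ₃ : ℝ),
  IsTranslationCover K → 0 < r → Gaps a b e →
  (∀ x ∈ K, D a x ≤ r) → (∀ x ∈ K, D b x ≤ r) → (∀ x ∈ K, D e x ≤ r) →
  Far K r d₁ p₁ γ₁ → Far K r d₂ p₂ γ₂ → Far K r d₃ p₃ γ₃ →
  π / 4 < γ₁ → π / 4 < γ₂ → π / 4 < γ₃ →
  a + γ₁ ≤ p₁ → p₁ + γ₁ ≤ b → b + γ₂ ≤ p₂ → p₂ + γ₂ ≤ e → e + γ₃ ≤ p₃ → p₃ + γ₃ ≤ a + 2 * π →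
  ∀ m₁ n₁ m₂ n₂ m₃ n₃ : ℝ, 0 ≤ m₁ → 0 ≤ n₁ → 0 ≤ m₂ → 0 ≤ n₂ → 0 ≤ m₃ → 0 ≤ n₃ →
  (∀ x ∈ K, D (p₁ - γ₁) x ≤ r + m₁) → (∀ x ∈ K, D (p₁ + γ₁) x ≤ r + n₁) →
  (∀ x ∈ K, D (p₂ - γ₂) x ≤ r + m₂) → (∀ x ∈ K, D (p₂ + γ₂) x ≤ r + n₂) →
  (∀ x ∈ K, D (p₃ - γ₃) x ≤ r + m₃) → (∀ x ∈ K, D (p₃ + γ₃) x ≤ r + n₃) →
  3 - 4 * r * (phi (eta p₁ γ₁ p₂ γ₂) + phi (eta p₂ γ₂ p₃ γ₃) + phi (eta p₃ γ₃ (p₁ + 2 * π) γ₁)) ≤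
    m₁ + n₁ + m₂ + n₂ + m₃ + n₃

/-- W3: from the widths in the six tangent directions. -/
def S_W3 : Prop := ∀ (K : Set Plane) (r d₁ d₂ d₃ p₁ p₂ p₃ γ₁ γ₂ γ₃ : ℝ),
  Wide K → 0 < r →
  Far K r d₁ p₁ γ₁ → Far K r d₂ p₂ γ₂ → Far K r d₃ p₃ γ₃ →
  π / 4 < γ₁ → π / 4 < γ₂ → π / 4 < γ₃ →
  p₁ + γ₁ ≤ p₂ - γ₂ → p₂ + γ₂ ≤ p₃ - γ₃ → p₃ + γ₃ ≤ p₁ - γ₁ + 2 * π →
  ∀ m₁ n₁ m₂ n₂ m₃ n₃ : ℝ, 0 ≤ m₁ → 0 ≤ n₁ → 0 ≤ m₂ → 0 ≤ n₂ → 0 ≤ m₃ → 0 ≤ n₃ →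
  (∀ x ∈ K, D (p₁ - γ₁) x ≤ r + m₁) → (∀ x ∈ K, D (p₁ + γ₁) x ≤ r + n₁) →
  (∀ x ∈ K, D (p₂ - γ₂) x ≤ r + m₂) → (∀ x ∈ K, D (p₂ + γ₂) x ≤ r + n₂) →
  (∀ x ∈ K, D (p₃ - γ₃) x ≤ r + m₃) → (∀ x ∈ K, D (p₃ + γ₃) x ≤ r + n₃) →
  3 - 6 * r - 2 * (d₃ * cos (eta p₁ γ₁ p₂ γ₂) + d₁ * cos (eta p₂ γ₂ p₃ γ₃) +
      d₂ * cos (eta p₃ γ₃ (p₁ + 2 * π) γ₁)) ≤
    (1 + 2 / sin (2 * γ₁)) * (m₁ + n₁) + (1 + 2 / sin (2 * γ₂)) * (m₂ + n₂) +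
      (1 + 2 / sin (2 * γ₃)) * (m₃ + n₃)

/-- the angles of the numeric pieces -/
def Ang (r γ₁ γ₂ γ₃ η₁ η₂ η₃ : ℝ) : Prop :=
  0 < γ₁ ∧ γ₁ < π / 2 ∧ 0 < γ₂ ∧ γ₂ < π / 2 ∧ 0 < γ₃ ∧ γ₃ < π / 2 ∧ 0 ≤ η₁ ∧ 0 ≤ η₂ ∧ 0 ≤ η₃ ∧
  γ₁ + γ₂ + γ₃ + η₁ + η₂ + η₃ = π ∧
  (1 / 2 - r) * cos γ₁ ≤ r ∧ (1 / 2 - r) * cos γ₂ ≤ r ∧ (1 / 2 - r) * cos γ₃ ≤ r

/-- NL (numerically: minimum 0.15680) -/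
def S_NL : Prop := ∀ r γ₁ γ₂ γ₃ η₁ η₂ η₃ : ℝ, 1 / 6 ≤ r → r ≤ 0.1936 →
  Ang r γ₁ γ₂ γ₃ η₁ η₂ η₃ →
  0.1566 ≤ r ^ 2 * (tan γ₁ + tan γ₂ + tan γ₃ + sin η₁ + sin η₂ + sin η₃) +
    0.117 * (3 - 4 * r * (phi η₁ + phi η₂ + phi η₃))

/-- NR (numerically: minimum 0.15675) -/
def S_NR : Prop := ∀ r γ₁ γ₂ γ₃ η₁ η₂ η₃ : ℝ, 0.1936 ≤ r → r ≤ 0.2 →
  Ang r γ₁ γ₂ γ₃ η₁ η₂ η₃ →
  0.1566 ≤ r ^ 2 * (tan γ₁ + tan γ₂ + tan γ₃ + sin η₁ + sin η₂ + sin η₃) +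
    0.037 * (3 - 6 * r - 2 * (r / cos γ₁ * cos η₁ + r / cos γ₂ * cos η₂ + r / cos γ₃ * cos η₃))

/-- NH (numerically: minimum 0.15672) -/
def S_NH : Prop := ∀ r γ₁ γ₂ γ₃ η₁ η₂ η₃ : ℝ, 0.2 ≤ r → r ≤ 0.2233 →
  Ang r γ₁ γ₂ γ₃ η₁ η₂ η₃ →
  0.1566 ≤ r ^ 2 * (tan γ₁ + tan γ₂ + tan γ₃ + sin η₁ + sin η₂ + sin η₃)

/-- CR -/
def S_CR : Prop := ∀ r γ : ℝ, 0.1936 ≤ r → r ≤ 0.2 → 0 < γ → γ < π / 2 →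
  (1 / 2 - r) * cos γ ≤ r → 0.037 * (1 + 2 / sin (2 * γ)) ≤ r * tan γ / 2

/-- FIN: the lower bound. -/
def S_FIN : Prop := ∀ K : Set Plane, IsCompact K → Convex ℝ K → IsTranslationCover K →
  ENNReal.ofReal 0.1566 ≤ volume K

end Pool.Agent.V7H47.LB
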