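import Pool.Agent.V7H47.LB.Spec

/-!
# Lower bound 0.1566 for convex translation covers: assembly of the pieces
-/

set_option autoImplicit false
set_option maxHeartbeats 4000000

open Real Set MeasureTheory

namespace Pool.Agent.V7H47.LB

open Pool.Agent.V7H47.TC (Plane IsClosedWorm IsTranslationCover)

lemma D_add (t : ℝ) (x y : Plane) : D t (x + y) = D t x + D t y := by
  simp [D]; ring

lemma D_pol (d t : ℝ) : D t (pol d t) = d := by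
  show cos t * (d * cos t) + sin t * (d * sin t) = d
  linear_combination d * cos_sq_add_sin_sq t

lemma continuous_D (t : ℝ) : Continuous (D t) := by
  unfold D; fun_prop

lemma pol_mem_ball {r : ℝ} (hr : 0 < r) (t : ℝ) : pol r t ∈ Metric.closedBall (0 : Plane) r := by
  rw [Metric.mem_closedBall]
  have h := Pool.Agent.V7H47.TC.dist_sq (pol r t) 0
  have h2 : dist (pol r t) 0 ^ 2 = r ^ 2 := by
    rw [h]
    show (r * cos t - 0) ^ 2 + (r * sin t - 0) ^ 2 = r ^ 2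
    linear_combination r ^ 2 * cos_sq_add_sin_sq t
  exact le_of_sq_le_sq h2.le hr.le

/-- support values -/
lemma supp {K : Set Plane} (hK : IsCompact K) {r : ℝ} (hr : 0 < r)
    (hball : Metric.closedBall 0 r ⊆ K) (t : ℝ) :
    ∃ m : ℝ, 0 ≤ m ∧ (∃ x ∈ K, r + m ≤ D t x) ∧ ∀ x ∈ K, D t x ≤ r + m := by
  have hmem : pol r t ∈ K := hball (pol_mem_ball hr t)
  obtain ⟨x, hx, hmax⟩ := hK.exists_isMaxOn ⟨_, hmem⟩ (continuous_D t).continuousOn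
  have h1 : D t (pol r t) ≤ D t x := hmax hmem
  rw [D_pol] at h1
  refine ⟨D t x - r, by linarith, ⟨x, hx, by linarith⟩, ?_⟩
  intro y hy
  have h2 : D t y ≤ D t x := hmax hy
  linarith

lemma far_facts {K : Set Plane} {r d p γ : ℝ} (hr : 0 < r) (hr4 : r ≤ 0.2233)
    (h : Far K r d p γ) (hd : 1 / 2 - r ≤ d) :
    0 < γ ∧ γ < π / 2 ∧ 0 < cos γ ∧ 0 < sin γ ∧ (1 / 2 - r) * cos γ ≤ r ∧ d * sin γ = r * tan γ ∧
      1 / 4 - r ≤ (d * sin γ) ^ 2 ∧ 0 < d * sin γ ∧ d = r / cos γ ∧ π / 6 < γ ∧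
      (r ≤ 0.2 → π / 4 < γ) := by
  obtain ⟨h0, h1, h2, -⟩ := h
  have hc : 0 < cos γ := cos_pos_of_mem_Ioo ⟨by linarith, h1⟩
  have hs : 0 < sin γ := sin_pos_of_pos_of_lt_pi h0 (by linarith [pi_pos])
  have hd0 : 0 < d := by norm_num at hr4; linarith
  have h3 : (1 / 2 - r) * cos γ ≤ r := by
    have := mul_le_mul_of_nonneg_right hd hc.le
    rwa [h2] at this
  have h4 : d * sin γ = r * tan γ := by
    have e : r * (sin γ / cos γ) = d * cos γ * (sin γ / cos γ) := by rw [h2]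
    rw [tan_eq_sin_div_cos, e]; field_simp
  have h5 : 1 / 4 - r ≤ (d * sin γ) ^ 2 := by
    have e1 : (d * sin γ) ^ 2 = d ^ 2 - (d * cos γ) ^ 2 := by
      have := sin_sq_add_cos_sq γ
      have e2 : sin γ ^ 2 = 1 - cos γ ^ 2 := by linarith
      rw [mul_pow, e2]; ring
    rw [e1, h2]
    have : (1 / 2 - r) ^ 2 ≤ d ^ 2 := by
      apply pow_le_pow_left₀ _ hd
      norm_num at hr4; linarith
    nlinarith
  have h6 : d = r / cos γ := by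
    rw [eq_div_iff hc.ne', h2]
  refine ⟨h0, h1, hc, hs, h3, h4, h5, by positivity, h6, ?_, ?_⟩
  · by_contra hcon
    push Not at hcon
    have h7 : cos (π / 6) ≤ cos γ := cos_le_cos_of_nonneg_of_le_pi h0.le (by linarith [pi_pos]) hcon
    rw [cos_pi_div_six] at h7
    have h8 : (1.7 : ℝ) < √3 := by
      rw [lt_sqrt (by norm_num)]; norm_num
    norm_num at hr4 h8
    nlinarith
  · intro hr2
    by_contra hcon
    push Not at hcon
    have h7 : cos (π / 4) ≤ cos γ := cos_le_cos_of_nonneg_of_le_pi h0.le (by linarith [pi_pos]) hcon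
    rw [cos_pi_div_four] at h7
    have h8 : (1.41 : ℝ) < √2 := by
      rw [lt_sqrt (by norm_num)]; norm_num
    norm_num at hr2 h8
    nlinarith

lemma r_ge {r γ : ℝ} (h0 : 0 < γ) (h1 : γ ≤ π / 3) (h3 : (1 / 2 - r) * cos γ ≤ r)
    (hr4 : r ≤ 0.2233) : 1 / 6 ≤ r := by
  have h7 : cos (π / 3) ≤ cos γ := cos_le_cos_of_nonneg_of_le_pi h0.le (by linarith [pi_pos]) h1
  rw [cos_pi_div_three] at h7
  norm_num at hr4
  nlinarith

lemma arithL {R T1 T2 T3 S1 S2 S3 P x1 x2 x3 m₁ n₁ m₂ n₂ m₃ n₃ : ℝ}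
    (hn : 0.1566 ≤ R * (T1 + T2 + T3 + S1 + S2 + S3) + 0.117 * (3 - P))
    (hw : 3 - P ≤ m₁ + n₁ + m₂ + n₂ + m₃ + n₃)
    (t1 : 0.234 * (m₁ + n₁) ≤ x1 * (m₁ + n₁)) (t2 : 0.234 * (m₂ + n₂) ≤ x2 * (m₂ + n₂))
    (t3 : 0.234 * (m₃ + n₃) ≤ x3 * (m₃ + n₃)) :
    0.1566 ≤ R * (T1 + T2 + T3) + R * (S1 + S2 + S3) +
      (x1 * (m₁ + n₁) + x2 * (m₂ + n₂) + x3 * (m₃ + n₃)) / 2 := by
  norm_num at hn t1 t2 t3 ⊢
  linarith

lemma arithR {R T1 T2 T3 S1 S2 S3 P x1 x2 x3 s1 s2 s3 m₁ n₁ m₂ n₂ m₃ n₃ A B C : ℝ}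
    (hn : 0.1566 ≤ R * (T3 + T1 + T2 + S1 + S2 + S3) + 0.037 * (P - 2 * (A + B + C)))
    (hw : 0.037 * (P - 2 * (A + B + C)) ≤
      0.037 * (s1 * (m₁ + n₁) + s2 * (m₂ + n₂) + s3 * (m₃ + n₃)))
    (t1 : 0.037 * s1 * (m₁ + n₁) ≤ x1 / 2 * (m₁ + n₁))
    (t2 : 0.037 * s2 * (m₂ + n₂) ≤ x2 / 2 * (m₂ + n₂))
    (t3 : 0.037 * s3 * (m₃ + n₃) ≤ x3 / 2 * (m₃ + n₃)) :
    0.1566 ≤ R * (T1 + T2 + T3) + R * (S1 + S2 + S3) +
      (x1 * (m₁ + n₁) + x2 * (m₂ + n₂) + x3 * (m₃ + n₃)) / 2 := by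
  norm_num at hn hw t1 t2 t3 ⊢
  linarith

lemma arithH {R T1 T2 T3 S1 S2 S3 x1 x2 x3 : ℝ}
    (hn : 0.1566 ≤ R * (T1 + T2 + T3 + S1 + S2 + S3))
    (t1 : 0 ≤ x1) (t2 : 0 ≤ x2) (t3 : 0 ≤ x3) :
    0.1566 ≤ R * (T1 + T2 + T3) + R * (S1 + S2 + S3) + (x1 + x2 + x3) / 2 := by
  norm_num at hn ⊢
  linarith

lemma core (hGEO : S_GEO) (hNINE : S_NINE) (hW2 : S_W2) (hW3 : S_W3) (hNL : S_NL)
    (hNR : S_NR) (hNH : S_NH) (hCR : S_CR) (K : Set Plane) (hK : IsCompact K) (hc : Convex ℝ K)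
    (hcov : IsTranslationCover K) (hW : Wide K) (r a b e : ℝ) (hr : 0 < r) (hr4 : r ≤ 0.2233)
    (hball : Metric.closedBall 0 r ⊆ K) (hG : Gaps a b e)
    (ha : ∀ x ∈ K, D a x ≤ r) (hb : ∀ x ∈ K, D b x ≤ r) (he : ∀ x ∈ K, D e x ≤ r) :
    ENNReal.ofReal 0.1566 ≤ volume K := by
  obtain ⟨d₁, d₂, d₃, p₁, p₂, p₃, γ₁, γ₂, γ₃, F1, F2, F3, D1, D2, D3, q1, q2, q3, q4, q5, q6⟩ :=
    hGEO K r a b e hr (by norm_num at hr4; linarith) hball hW hG ha hb he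
  obtain ⟨a0, a1, a2, a3, a4, a5, a6, a7, a8, a9, a10⟩ := far_facts hr hr4 F1 D1
  obtain ⟨b0, b1, b2, b3, b4, b5, b6, b7, b8, b9, b10⟩ := far_facts hr hr4 F2 D2
  obtain ⟨c0, c1, c2, c3, c4, c5, c6, c7, c8, c9, c10⟩ := far_facts hr hr4 F3 D3
  obtain ⟨m₁, M1, M1a, M1b⟩ := supp hK hr hball (p₁ - γ₁)
  obtain ⟨n₁, N1, N1a, N1b⟩ := supp hK hr hball (p₁ + γ₁)
  obtain ⟨m₂, M2, M2a, M2b⟩ := supp hK hr hball (p₂ - γ₂)
  obtain ⟨n₂, N2, N2a, N2b⟩ := supp hK hr hball (p₂ + γ₂)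
  obtain ⟨m₃, M3, M3a, M3b⟩ := supp hK hr hball (p₃ - γ₃)
  obtain ⟨n₃, N3, N3a, N3b⟩ := supp hK hr hball (p₃ + γ₃)
  have o1 : p₁ + γ₁ ≤ p₂ - γ₂ := by linarith
  have o2 : p₂ + γ₂ ≤ p₃ - γ₃ := by linarith
  have o3 : p₃ + γ₃ ≤ p₁ - γ₁ + 2 * π := by linarith
  have e1 : 0 ≤ eta p₁ γ₁ p₂ γ₂ := by unfold eta; linarith
  have e2 : 0 ≤ eta p₂ γ₂ p₃ γ₃ := by unfold eta; linarith
  have e3 : 0 ≤ eta p₃ γ₃ (p₁ + 2 * π) γ₁ := by unfold eta; linarith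
  have es : γ₁ + γ₂ + γ₃ + eta p₁ γ₁ p₂ γ₂ + eta p₂ γ₂ p₃ γ₃ + eta p₃ γ₃ (p₁ + 2 * π) γ₁ = π := by
    unfold eta; ring
  have hnine := hNINE K r d₁ d₂ d₃ p₁ p₂ p₃ γ₁ γ₂ γ₃ hK hc hr hball F1 F2 F3 o1 o2 o3
    (by linarith) (by linarith) (by linarith) m₁ n₁ m₂ n₂ m₃ n₃ M1a N1a M2a N2a M3a N3a
  refine le_trans (ENNReal.ofReal_le_ofReal ?_) hnine
  have hang : Ang r γ₁ γ₂ γ₃ (eta p₁ γ₁ p₂ γ₂) (eta p₂ γ₂ p₃ γ₃) (eta p₃ γ₃ (p₁ + 2 * π) γ₁) :=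
    ⟨a0, a1, b0, b1, c0, c1, e1, e2, e3, es, a4, b4, c4⟩
  have hang' : Ang r γ₃ γ₁ γ₂ (eta p₁ γ₁ p₂ γ₂) (eta p₂ γ₂ p₃ γ₃) (eta p₃ γ₃ (p₁ + 2 * π) γ₁) :=
    ⟨c0, c1, a0, a1, b0, b1, e1, e2, e3, by linarith, c4, a4, b4⟩
  have hr6 : 1 / 6 ≤ r := by
    rcases le_total γ₁ (π / 3) with h | h
    · exact r_ge a0 h a4 hr4
    · rcases le_total γ₂ (π / 3) with h' | h'
      · exact r_ge b0 h' b4 hr4
      · exact r_ge c0 (by linarith) c4 hr4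
  rcases le_total r 0.1936 with hA | hA
  · -- low range
    have hr2 : r ≤ 0.2 := by norm_num at hA ⊢; linarith
    have key : ∀ s : ℝ, 0 < s → 1 / 4 - r ≤ s ^ 2 → 0.234 ≤ s := by
      intro s hs0 hs
      by_contra hcon
      push Not at hcon
      norm_num at hcon hA
      nlinarith
    have k1 := key _ a7 a6
    have k2 := key _ b7 b6
    have k3 := key _ c7 c6
    have hw := hW2 K r a b e d₁ d₂ d₃ p₁ p₂ p₃ γ₁ γ₂ γ₃ hcov hr hG ha hb he F1 F2 F3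
      (a10 hr2) (b10 hr2) (c10 hr2) q1 q2 q3 q4 q5 q6 m₁ n₁ m₂ n₂ m₃ n₃ M1 N1 M2 N2 M3 N3
      M1b N1b M2b N2b M3b N3b
    have hn := hNL r γ₁ γ₂ γ₃ _ _ _ hr6 hA hang
    have t1 : 0.234 * (m₁ + n₁) ≤ d₁ * sin γ₁ * (m₁ + n₁) :=
      mul_le_mul_of_nonneg_right k1 (by linarith)
    have t2 : 0.234 * (m₂ + n₂) ≤ d₂ * sin γ₂ * (m₂ + n₂) :=
      mul_le_mul_of_nonneg_right k2 (by linarith)
    have t3 : 0.234 * (m₃ + n₃) ≤ d₃ * sin γ₃ * (m₃ + n₃) :=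
      mul_le_mul_of_nonneg_right k3 (by linarith)
    have g1 : r * (d₁ * sin γ₁ + d₂ * sin γ₂ + d₃ * sin γ₃) =
        r ^ 2 * (tan γ₁ + tan γ₂ + tan γ₃) := by
      rw [a5, b5, c5]; ring
    rw [g1]
    exact arithL hn hw t1 t2 t3
  · rcases le_total r 0.2 with hB | hB
    · -- middle range
      have k1 := hCR r γ₁ hA hB a0 a1 a4
      have k2 := hCR r γ₂ hA hB b0 b1 b4
      have k3 := hCR r γ₃ hA hB c0 c1 c4
      have hw := hW3 K r d₁ d₂ d₃ p₁ p₂ p₃ γ₁ γ₂ γ₃ hW hr F1 F2 F3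
        (a10 hB) (b10 hB) (c10 hB) o1 o2 o3 m₁ n₁ m₂ n₂ m₃ n₃ M1 N1 M2 N2 M3 N3
        M1b N1b M2b N2b M3b N3b
      have hn := hNR r γ₃ γ₁ γ₂ _ _ _ hA hB hang'
      rw [← a8, ← b8, ← c8] at hn
      have t1 := mul_le_mul_of_nonneg_right k1 (show 0 ≤ m₁ + n₁ by linarith)
      have t2 := mul_le_mul_of_nonneg_right k2 (show 0 ≤ m₂ + n₂ by linarith)
      have t3 := mul_le_mul_of_nonneg_right k3 (show 0 ≤ m₃ + n₃ by linarith)
      have g1 : r * (d₁ * sin γ₁ + d₂ * sin γ₂ + d₃ * sin γ₃) =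
          r ^ 2 * (tan γ₁ + tan γ₂ + tan γ₃) := by
        rw [a5, b5, c5]; ring
      have g2 := mul_le_mul_of_nonneg_left hw (show (0 : ℝ) ≤ 0.037 by norm_num)
      rw [← a5] at t1
      rw [← b5] at t2
      rw [← c5] at t3
      rw [g1]
      exact arithR hn g2 t1 t2 t3
    · -- high range
      have hn := hNH r γ₁ γ₂ γ₃ _ _ _ hB hr4 hang
      have g1 : r * (d₁ * sin γ₁ + d₂ * sin γ₂ + d₃ * sin γ₃) =
          r ^ 2 * (tan γ₁ + tan γ₂ + tan γ₃) := by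
        rw [a5, b5, c5]; ring
      have t1 : 0 ≤ d₁ * sin γ₁ * (m₁ + n₁) := mul_nonneg a7.le (by linarith)
      have t2 : 0 ≤ d₂ * sin γ₂ * (m₂ + n₂) := mul_nonneg b7.le (by linarith)
      have t3 : 0 ≤ d₃ * sin γ₃ * (m₃ + n₃) := mul_nonneg c7.le (by linarith)
      rw [g1]
      exact arithH hn t1 t2 t3

theorem t_FIN (hWID : S_WID) (hINC : S_INC) (hGEO : S_GEO) (hNINE : S_NINE) (hW2 : S_W2)
    (hW3 : S_W3) (hNL : S_NL) (hNR : S_NR) (hNH : S_NH) (hCR : S_CR) : S_FIN := by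
  intro K hK hc hcov
  obtain ⟨c, r, hr, hball, h⟩ := hINC K hK hc (hWID K hcov)
  rcases le_total 0.2233 r with hbig | hsmall
  · -- large disc
    refine le_trans ?_ (measure_mono hball)
    rw [EuclideanSpace.volume_closedBall_fin_two, ← ENNReal.ofReal_pow hr.le]
    rw [← ENNReal.ofReal_mul (by positivity)]
    apply ENNReal.ofReal_le_ofReal
    have h1 := pi_gt_d6
    norm_num at hbig h1 ⊢
    nlinarith [mul_self_nonneg (r - 0.2233), pi_pos]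
  · rcases h with ⟨t, h1, h2⟩ | ⟨a, b, e, hG, ha, hb, he⟩
    · exfalso
      obtain ⟨x, hx, y, hy, hxy⟩ := hWID K hcov t
      have := h1 x hx
      have := h2 y hy
      norm_num at hsmall
      linarith
    · have hK' : IsCompact ((fun x => x + c) ⁻¹' K) :=
        (Homeomorph.addRight c).isCompact_preimage.2 hK
      have hc' : Convex ℝ ((fun x => x + c) ⁻¹' K) := hc.translate_preimage_left c
      have hcov' : IsTranslationCover ((fun x => x + c) ⁻¹' K) := by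
        intro γ hγ
        obtain ⟨v, hv⟩ := hcov γ hγ
        refine ⟨v - c, fun t ht => ?_⟩
        have := hv t ht
        simpa [add_assoc] using this
      have hv : volume ((fun x => x + c) ⁻¹' K) = volume K := measure_preimage_add_right _ _ _
      rw [← hv]
      refine core hGEO hNINE hW2 hW3 hNL hNR hNH hCR _ hK' hc' hcov' (hWID _ hcov') r a b e hr
        hsmall ?_ hG ?_ ?_ ?_
      · intro x hx
        apply hball
        rw [Metric.mem_closedBall, dist_zero_right] at hx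
        rw [Metric.mem_closedBall, dist_eq_norm]
        simpa using hx
      · intro x hx
        have := ha _ hx
        rw [D_add] at this
        linarith
      · intro x hx
        have := hb _ hx
        rw [D_add] at this
        linarith
      · intro x hx
        have := he _ hx
        rw [D_add] at this
        linarith

end Pool.Agent.V7H47.LB
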