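import Pool.Agent.V7H47.LB.Spec

/-!
# NINE (second version): polygons whose arcs are given by a monotone list
-/

set_option autoImplicit false
set_option maxHeartbeats 4000000

open Real Set MeasureTheory

namespace Pool.Agent.V7H47.LB.N

open Pool.Agent.V7H47.TC (Plane)

lemma mix_sub (hMIX : S_MIX) {ι : Type} [Fintype ι] (K : Set Plane) (hK : IsCompact K)
    (hc : Convex ℝ K) (h0 : (0 : Plane) ∈ K) (t c α β : ι → ℝ) (Q : ι → Plane)
    (hQ : ∀ i, Q i ∈ K ∧ ∀ x ∈ K, D (t i) x ≤ D (t i) (Q i))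
    (h1 : ∀ i, 0 < c i ∧ α i ≤ β i ∧ ea (t i) (c i) (α i) ∈ K ∧ ea (t i) (c i) (β i) ∈ K)
    (h2 : ∀ i j, D (t i) (ea (t j) (c j) (α j)) ≤ c i ∧ D (t i) (ea (t j) (c j) (β j)) ≤ c i)
    (h3 : ∀ i j, i ≠ j → α i < β i → α j < β j → D (t i) (ea (t j) (c j) (α j)) < c i ∨
      D (t i) (ea (t j) (c j) (β j)) < c i ∨
      (cos (t i) = cos (t j) ∧ sin (t i) = sin (t j) ∧ Q i = Q j ∧ (β i ≤ α j ∨ β j ≤ α i))) :
    ENNReal.ofReal (∑ i, (β i - α i) * D (t i) (Q i) / 2) ≤ volume K := by
  classical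
  let e := Fintype.equivFin {i : ι // α i < β i}
  have h := hMIX (Fintype.card {i : ι // α i < β i}) K hK hc h0 (fun k => t (e.symm k).1)
    (fun k => c (e.symm k).1) (fun k => α (e.symm k).1) (fun k => β (e.symm k).1)
    (fun k => Q (e.symm k).1) (fun k => hQ _)
    (fun k => ⟨(h1 _).1, (e.symm k).2, (h1 _).2.2⟩) (fun i j => h2 _ _)
    (fun i j hij => h3 _ _ (fun hh => hij (e.symm.injective (Subtype.ext hh))) (e.symm i).2
      (e.symm j).2)
  have e1 : ∑ i, (β i - α i) * D (t i) (Q i) / 2 =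
      ∑ i : {i : ι // α i < β i}, (β i.1 - α i.1) * D (t i.1) (Q i.1) / 2 := by
    rw [← Finset.sum_subtype (Finset.univ.filter (fun i => α i < β i)) (by simp)
      (fun i => (β i - α i) * D (t i) (Q i) / 2)]
    refine (Finset.sum_subset (Finset.filter_subset _ _) ?_).symm
    intro i _ hi
    have h4 : ¬ (α i < β i) := by simpa using hi
    have h5 : β i = α i := le_antisymm (not_lt.1 h4) (h1 i).2.1
    rw [h5]; ring
  have e2 : ∑ i : {i : ι // α i < β i}, (β i.1 - α i.1) * D (t i.1) (Q i.1) / 2 =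
      ∑ k, (β (e.symm k).1 - α (e.symm k).1) * D (t (e.symm k).1) (Q (e.symm k).1) / 2 :=
    (Equiv.sum_comp e.symm (fun i : {i : ι // α i < β i} =>
      (β i.1 - α i.1) * D (t i.1) (Q i.1) / 2)).symm
  rw [e1, e2]
  exact h

lemma D_pol' (s ρ θ : ℝ) : D s (pol ρ θ) = ρ * cos (θ - s) := by
  show cos s * (ρ * cos θ) + sin s * (ρ * sin θ) = _
  rw [cos_sub]; ring

lemma left_pt {r g h : ℝ} (t : ℝ) (hg : 0 < cos g) (hz : g = 0 ∨ h = 0) :
    ea t (r * cos h) (-(r * (tan g + sin h))) = pol (r / cos g) (t - h - g) := by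
  unfold ea pol
  rcases hz with rfl | rfl
  · ext k
    fin_cases k
    · simp [cos_add, cos_sub]; ring
    · simp [sin_add, sin_sub]; ring
  · ext k
    fin_cases k
    · simp [cos_add, cos_sub, tan_eq_sin_div_cos]; field_simp
    · simp [sin_add, sin_sub, tan_eq_sin_div_cos]; field_simp; try ring

lemma right_pt {r g h : ℝ} (t : ℝ) (hg : 0 < cos g) (hz : g = 0 ∨ h = 0) :
    ea t (r * cos h) (r * (tan g + sin h)) = pol (r / cos g) (t + h + g) := by
  unfold ea pol
  rcases hz with rfl | rfl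
  · ext k
    fin_cases k
    · simp [cos_add]; ring
    · simp [sin_add]; ring
  · ext k
    fin_cases k
    · simp [cos_add, tan_eq_sin_div_cos]; field_simp; try ring
    · simp [sin_add, tan_eq_sin_div_cos]; field_simp; try ring

lemma cos_le' {x y : ℝ} (h0 : 0 ≤ y) (h1 : y ≤ x) (h2 : x ≤ 2 * π - y) : cos x ≤ cos y := by
  rcases le_total x π with h | h
  · exact cos_le_cos_of_nonneg_of_le_pi h0 h h1
  · rw [← cos_two_pi_sub x]
    exact cos_le_cos_of_nonneg_of_le_pi h0 (by linarith) (by linarith)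

lemma cos_lt' {x y : ℝ} (h0 : 0 ≤ y) (h1 : y < x) (h2 : x < 2 * π - y) : cos x < cos y := by
  rcases le_total x π with h | h
  · exact cos_lt_cos_of_nonneg_of_le_pi h0 h h1
  · rw [← cos_two_pi_sub x]
    exact cos_lt_cos_of_nonneg_of_le_pi h0 (by linarith) (by linarith)

lemma le_lem {r g h x : ℝ} (hr : 0 < r) (hg0 : 0 ≤ g) (hg : g < π / 2) (hh0 : 0 ≤ h)
    (hh : h < π / 2) (h1 : h + g ≤ x) (h2 : x ≤ 2 * π - (h + g)) :
    r / cos g * cos x ≤ r * cos h := by
  have hcg : 0 < cos g := cos_pos_of_mem_Ioo ⟨by linarith, hg⟩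
  have e1 : cos x ≤ cos (h + g) := cos_le' (by linarith) h1 h2
  have e2 : 0 ≤ sin h * sin g := mul_nonneg (sin_nonneg_of_nonneg_of_le_pi hh0 (by linarith))
    (sin_nonneg_of_nonneg_of_le_pi hg0 (by linarith))
  rw [cos_add] at e1
  rw [div_mul_eq_mul_div, div_le_iff₀ hcg]
  have : r * cos x ≤ r * (cos h * cos g) := mul_le_mul_of_nonneg_left (by linarith) hr.le
  linarith

lemma lt_lem {r g h x : ℝ} (hr : 0 < r) (hg0 : 0 ≤ g) (hg : g < π / 2) (hh0 : 0 ≤ h)
    (hh : h < π / 2) (h1 : h + g ≤ x) (h2 : x ≤ 2 * π - (h + g))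
    (h3 : (0 < h ∧ 0 < g) ∨ (h + g < x ∧ x < 2 * π - (h + g))) :
    r / cos g * cos x < r * cos h := by
  have hcg : 0 < cos g := cos_pos_of_mem_Ioo ⟨by linarith, hg⟩
  rw [div_mul_eq_mul_div, div_lt_iff₀ hcg]
  have key : cos x < cos h * cos g := by
    rcases h3 with ⟨a, b⟩ | ⟨a, b⟩
    · have e1 : cos x ≤ cos (h + g) := cos_le' (by linarith) h1 h2
      have e2 : 0 < sin h * sin g := mul_pos (sin_pos_of_pos_of_lt_pi a (by linarith))
        (sin_pos_of_pos_of_lt_pi b (by linarith))
      rw [cos_add] at e1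
      linarith
    · have e1 : cos x < cos (h + g) := cos_lt' (by linarith) a b
      have e2 : 0 ≤ sin h * sin g := mul_nonneg (sin_nonneg_of_nonneg_of_le_pi hh0 (by linarith))
        (sin_nonneg_of_nonneg_of_le_pi hg0 (by linarith))
      rw [cos_add] at e1
      linarith
  have : r * cos x < r * (cos h * cos g) := mul_lt_mul_of_pos_left key hr
  linarith

/-- an arc `[u, u']` of a vertex seen from the line with arc `[w, w']`, after it -/
lemma after_le {r u u' w w' : ℝ} (hr : 0 < r) (hu : u ≤ u') (hu2 : u' - u < π) (hw : w ≤ w')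
    (hw2 : w' - w < π) (h1 : w' ≤ u) (h2 : u' ≤ w + 2 * π) :
    D ((w + w') / 2) (pol (r / cos ((u' - u) / 2)) ((u + u') / 2)) ≤
      r * cos ((w' - w) / 2) := by
  rw [D_pol']
  exact le_lem hr (by linarith) (by linarith) (by linarith) (by linarith) (by linarith)
    (by linarith)

lemma after_lt {r u u' w w' : ℝ} (hr : 0 < r) (hu : u ≤ u') (hu2 : u' - u < π) (hw : w ≤ w')
    (hw2 : w' - w < π) (h1 : w' ≤ u) (h2 : u' ≤ w + 2 * π)
    (h3 : (w < w' ∧ u < u') ∨ (w' < u ∧ u' < w + 2 * π)) :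
    D ((w + w') / 2) (pol (r / cos ((u' - u) / 2)) ((u + u') / 2)) <
      r * cos ((w' - w) / 2) := by
  rw [D_pol']
  refine lt_lem hr (by linarith) (by linarith) (by linarith) (by linarith) (by linarith)
    (by linarith) ?_
  rcases h3 with ⟨a, b⟩ | ⟨a, b⟩
  · left; constructor <;> linarith
  · right; constructor <;> linarith

lemma before_le {r u u' w w' : ℝ} (hr : 0 < r) (hu : u ≤ u') (hu2 : u' - u < π) (hw : w ≤ w')
    (hw2 : w' - w < π) (h1 : u' ≤ w) (h2 : w' ≤ u + 2 * π) :
    D ((w + w') / 2) (pol (r / cos ((u' - u) / 2)) ((u + u') / 2)) ≤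
      r * cos ((w' - w) / 2) := by
  rw [D_pol', ← cos_neg ((u + u') / 2 - (w + w') / 2)]
  exact le_lem hr (by linarith) (by linarith) (by linarith) (by linarith) (by linarith)
    (by linarith)

lemma before_lt {r u u' w w' : ℝ} (hr : 0 < r) (hu : u ≤ u') (hu2 : u' - u < π) (hw : w ≤ w')
    (hw2 : w' - w < π) (h1 : u' ≤ w) (h2 : w' ≤ u + 2 * π)
    (h3 : (w < w' ∧ u < u') ∨ (u' < w ∧ w' < u + 2 * π)) :
    D ((w + w') / 2) (pol (r / cos ((u' - u) / 2)) ((u + u') / 2)) <
      r * cos ((w' - w) / 2) := by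
  rw [D_pol', ← cos_neg ((u + u') / 2 - (w + w') / 2)]
  refine lt_lem hr (by linarith) (by linarith) (by linarith) (by linarith) (by linarith)
    (by linarith) ?_
  rcases h3 with ⟨a, b⟩ | ⟨a, b⟩
  · left; constructor <;> linarith
  · right; constructor <;> linarith

lemma exists_Q {K : Set Plane} (hK : IsCompact K) (hne : K.Nonempty) :
    ∃ Q : ℝ → Plane, (∀ t, Q t ∈ K ∧ ∀ x ∈ K, D t x ≤ D t (Q t)) ∧
      ∀ t s, cos t = cos s → sin t = sin s → Q t = Q s := by
  have h : ∀ v : ℝ × ℝ, ∃ q ∈ K, ∀ x ∈ K, v.1 * x 0 + v.2 * x 1 ≤ v.1 * q 0 + v.2 * q 1 := by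
    intro v
    have hcont : Continuous (fun x : Plane => v.1 * x 0 + v.2 * x 1) := by fun_prop
    obtain ⟨q, hq, hmax⟩ := hK.exists_isMaxOn hne hcont.continuousOn
    exact ⟨q, hq, fun x hx => hmax hx⟩
  choose q hq hmax using h
  refine ⟨fun t => q (cos t, sin t), fun t => ⟨hq _, fun x hx => hmax (cos t, sin t) x hx⟩, ?_⟩
  intro t s h1 h2
  simp only [h1, h2]

/-- the general polygon: `v_k = [b (2k), b (2k+1)]`, `e_k = [b (2k+1), b (2k+2)]` -/
theorem gen (hMIX : S_MIX) (N : ℕ) (K : Set Plane) (hK : IsCompact K) (hc : Convex ℝ K)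
    (r : ℝ) (hr : 0 < r) (hball : Metric.closedBall 0 r ⊆ K) (b : ℕ → ℝ) (hb : Monotone b)
    (hb0 : b 0 = b 1) (hb1 : b (2 * N) = b 0 + 2 * π) (hb2 : b (2 * N + 1) = b 0 + 2 * π)
    (hlen : ∀ k, b (k + 1) - b k < π)
    (hz1 : ∀ k < N, b (2 * k) = b (2 * k + 1) ∨ b (2 * k + 1) = b (2 * k + 2))
    (hz2 : ∀ k < N, b (2 * k + 2) = b (2 * k + 3) ∨ b (2 * k + 1) = b (2 * k + 2))
    (hz3 : ∀ k < N, b (2 * k) = b (2 * k + 1) ∨ b (2 * k + 2) = b (2 * k + 3))
    (hv : ∀ k ≤ N, pol (r / cos ((b (2 * k + 1) - b (2 * k)) / 2))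
      ((b (2 * k) + b (2 * k + 1)) / 2) ∈ K)
    (s : Fin N → ℝ) (hs : ∀ k : Fin N, ∃ x ∈ K, s k ≤ D ((b (2 * k + 1) + b (2 * k + 2)) / 2) x) :
    ENNReal.ofReal (∑ k : Fin N, r * (tan ((b (2 * k + 1) - b (2 * k)) / 2) +
      2 * sin ((b (2 * k + 2) - b (2 * k + 1)) / 2) +
      tan ((b (2 * k + 3) - b (2 * k + 2)) / 2)) * s k / 2) ≤ volume K := by
  have h0 : (0 : Plane) ∈ K := hball (by simp [hr.le])
  obtain ⟨Q, hQ, hQQ⟩ := exists_Q hK ⟨0, h0⟩
  have hmono : ∀ k, 0 ≤ b (k + 1) - b k := fun k => by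
    have := hb (Nat.le_succ k)
    simp only [Nat.succ_eq_add_one] at this
    linarith
  have hcos : ∀ k, 0 < cos ((b (k + 1) - b k) / 2) := fun k =>
    cos_pos_of_mem_Ioo ⟨by linarith [hmono k, pi_pos], by linarith [hlen k]⟩
  have htan : ∀ k, 0 ≤ tan ((b (k + 1) - b k) / 2) := fun k =>
    tan_nonneg_of_nonneg_of_le_pi_div_two (by linarith [hmono k]) (by linarith [hlen k])
  have hsin : ∀ k, 0 ≤ sin ((b (k + 1) - b k) / 2) := fun k =>
    sin_nonneg_of_nonneg_of_le_pi (by linarith [hmono k]) (by linarith [hlen k, pi_pos])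
  -- the vertices
  let V : ℕ → Plane := fun k => pol (r / cos ((b (2 * k + 1) - b (2 * k)) / 2))
      ((b (2 * k) + b (2 * k + 1)) / 2)
  have hA : ∀ k < N, ea ((b (2 * k + 1) + b (2 * k + 2)) / 2)
      (r * cos ((b (2 * k + 2) - b (2 * k + 1)) / 2))
      (-(r * (tan ((b (2 * k + 1) - b (2 * k)) / 2) +
        sin ((b (2 * k + 2) - b (2 * k + 1)) / 2)))) = V k := by
    intro k hk
    rw [left_pt _ (hcos (2 * k))]
    · show pol _ _ = pol _ _
      congr 1; ring
    · rcases hz1 k hk with h | h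
      · left; rw [h]; ring
      · right; rw [h]; ring
  have hB : ∀ k < N, ea ((b (2 * k + 1) + b (2 * k + 2)) / 2)
      (r * cos ((b (2 * k + 2) - b (2 * k + 1)) / 2))
      (r * (tan ((b (2 * k + 3) - b (2 * k + 2)) / 2) +
        sin ((b (2 * k + 2) - b (2 * k + 1)) / 2))) = V (k + 1) := by
    intro k hk
    rw [right_pt _ (hcos (2 * k + 2))]
    · show pol _ _ = pol _ _
      congr 1; ring_nf
    · rcases hz2 k hk with h | h
      · left; rw [h]; ring
      · right; rw [h]; ring
  have hup : ∀ m ≤ 2 * N + 1, b m ≤ b 0 + 2 * π := fun m hm => hb2 ▸ hb hm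
  have hlow : ∀ m, b 0 ≤ b m := fun m => hb (Nat.zero_le m)
  have hV : ∀ i < N, ∀ k ≤ N, D ((b (2 * i + 1) + b (2 * i + 2)) / 2) (V k) ≤
      r * cos ((b (2 * i + 2) - b (2 * i + 1)) / 2) := by
    intro i hi k hk
    rcases Nat.lt_or_ge i k with h | h
    · refine after_le hr (by linarith [hmono (2 * k)]) (hlen _) (by linarith [hmono (2 * i + 1)])
        (hlen (2 * i + 1)) (hb (by omega)) ?_
      have := hup (2 * k + 1) (by omega)
      have := hlow (2 * i + 1)
      linarith
    · refine before_le hr (by linarith [hmono (2 * k)]) (hlen _) (by linarith [hmono (2 * i + 1)])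
        (hlen (2 * i + 1)) (hb (by omega)) ?_
      have := hup (2 * i + 2) (by omega)
      have := hlow (2 * k)
      linarith
  have hmain := mix_sub hMIX K hK hc h0 (ι := Fin N)
    (fun k => (b (2 * k + 1) + b (2 * k + 2)) / 2)
    (fun k => r * cos ((b (2 * k + 2) - b (2 * k + 1)) / 2))
    (fun k => -(r * (tan ((b (2 * k + 1) - b (2 * k)) / 2) +
        sin ((b (2 * k + 2) - b (2 * k + 1)) / 2))))
    (fun k => r * (tan ((b (2 * k + 3) - b (2 * k + 2)) / 2) +
        sin ((b (2 * k + 2) - b (2 * k + 1)) / 2)))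
    (fun k => Q ((b (2 * k + 1) + b (2 * k + 2)) / 2)) (fun k => hQ _) ?_ ?_ ?_
  · refine le_trans (ENNReal.ofReal_le_ofReal ?_) hmain
    refine Finset.sum_le_sum fun k _ => ?_
    obtain ⟨x, hx, hsx⟩ := hs k
    have h1 : s k ≤ D ((b (2 * k + 1) + b (2 * k + 2)) / 2)
        (Q ((b (2 * k + 1) + b (2 * k + 2)) / 2)) := le_trans hsx ((hQ _).2 x hx)
    have h2 : 0 ≤ r * (tan ((b (2 * k + 1) - b (2 * k)) / 2) +
      2 * sin ((b (2 * k + 2) - b (2 * k + 1)) / 2) +
      tan ((b (2 * k + 3) - b (2 * k + 2)) / 2)) := by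
      have a1 := htan (2 * k)
      have a2 := htan (2 * k + 2)
      have a3 := hsin (2 * k + 1)
      exact mul_nonneg hr.le (by linarith)
    have h3 := mul_le_mul_of_nonneg_left h1 h2
    have h4 : (r * (tan ((b (2 * k + 3) - b (2 * k + 2)) / 2) +
        sin ((b (2 * k + 2) - b (2 * k + 1)) / 2)) -
        -(r * (tan ((b (2 * k + 1) - b (2 * k)) / 2) +
        sin ((b (2 * k + 2) - b (2 * k + 1)) / 2)))) =
        r * (tan ((b (2 * k + 1) - b (2 * k)) / 2) +
      2 * sin ((b (2 * k + 2) - b (2 * k + 1)) / 2) +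
      tan ((b (2 * k + 3) - b (2 * k + 2)) / 2)) := by ring
    simp only [h4]
    linarith
  · intro k
    refine ⟨mul_pos hr (hcos (2 * k + 1)), ?_, ?_, ?_⟩
    · have a1 := htan (2 * k)
      have a2 := htan (2 * k + 2)
      have a3 := hsin (2 * k + 1)
      have a4 := mul_nonneg hr.le (add_nonneg a1 a3)
      have a5 := mul_nonneg hr.le (add_nonneg a2 a3)
      show -(_) ≤ _
      exact le_trans (neg_nonpos.2 a4) a5
    · rw [hA k k.2]; exact hv k k.2.le
    · rw [hB k k.2]; exact hv (k + 1) k.2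
  · intro i j
    rw [hA j j.2, hB j j.2]
    exact ⟨hV i i.2 j j.2.le, hV i i.2 (j + 1) j.2⟩
  · intro i j hij hi hj
    rw [hA j j.2, hB j j.2]
    obtain ⟨i, hiN⟩ := i
    obtain ⟨j, hjN⟩ := j
    simp only [] at hi hj
    have hij' : i ≠ j := fun h => hij (Fin.ext h)
    have nondeg : ∀ k, -(r * (tan ((b (2 * k + 1) - b (2 * k)) / 2) +
        sin ((b (2 * k + 2) - b (2 * k + 1)) / 2))) <
        r * (tan ((b (2 * k + 3) - b (2 * k + 2)) / 2) +
        sin ((b (2 * k + 2) - b (2 * k + 1)) / 2)) → b (2 * k) < b (2 * k + 3) := by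
      intro k hk
      by_contra hcon
      push Not at hcon
      have q1 := hmono (2 * k)
      have q2 := hmono (2 * k + 1)
      have q3 := hmono (2 * k + 2)
      have q4 : b (2 * k + 1) - b (2 * k) = 0 := by linarith
      have q5 : b (2 * k + 2) - b (2 * k + 1) = 0 := by linarith
      have q6 : b (2 * k + 3) - b (2 * k + 2) = 0 := by linarith
      rw [q4, q5, q6] at hk
      simp at hk
    have hj' := nondeg j hj
    clear hi hj nondeg
    have i0 : 0 ≤ b (2 * i + 1) - b (2 * i) := hmono (2 * i)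
    have i1 : 0 ≤ b (2 * i + 2) - b (2 * i + 1) := hmono (2 * i + 1)
    have i2 : 0 ≤ b (2 * i + 3) - b (2 * i + 2) := hmono (2 * i + 2)
    have j0 : 0 ≤ b (2 * j + 1) - b (2 * j) := hmono (2 * j)
    have j1 : 0 ≤ b (2 * j + 2) - b (2 * j + 1) := hmono (2 * j + 1)
    have j2 : 0 ≤ b (2 * j + 3) - b (2 * j + 2) := hmono (2 * j + 2)
    have iL : b (2 * i + 2) - b (2 * i + 1) < π := hlen (2 * i + 1)
    have jL0 : b (2 * j + 1) - b (2 * j) < π := hlen (2 * j)
    have jL1 : b (2 * j + 2) - b (2 * j + 1) < π := hlen (2 * j + 1)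
    have jL2 : b (2 * j + 3) - b (2 * j + 2) < π := hlen (2 * j + 2)
    show D ((b (2 * i + 1) + b (2 * i + 2)) / 2)
        (pol (r / cos ((b (2 * j + 1) - b (2 * j)) / 2)) ((b (2 * j) + b (2 * j + 1)) / 2)) <
        r * cos ((b (2 * i + 2) - b (2 * i + 1)) / 2) ∨
      D ((b (2 * i + 1) + b (2 * i + 2)) / 2)
        (pol (r / cos ((b (2 * j + 3) - b (2 * j + 2)) / 2))
          ((b (2 * j + 2) + b (2 * j + 3)) / 2)) <
        r * cos ((b (2 * i + 2) - b (2 * i + 1)) / 2) ∨
      (cos ((b (2 * i + 1) + b (2 * i + 2)) / 2) = cos ((b (2 * j + 1) + b (2 * j + 2)) / 2) ∧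
        sin ((b (2 * i + 1) + b (2 * i + 2)) / 2) = sin ((b (2 * j + 1) + b (2 * j + 2)) / 2) ∧
        Q ((b (2 * i + 1) + b (2 * i + 2)) / 2) = Q ((b (2 * j + 1) + b (2 * j + 2)) / 2) ∧
        (r * (tan ((b (2 * i + 3) - b (2 * i + 2)) / 2) +
          sin ((b (2 * i + 2) - b (2 * i + 1)) / 2)) ≤
          -(r * (tan ((b (2 * j + 1) - b (2 * j)) / 2) +
          sin ((b (2 * j + 2) - b (2 * j + 1)) / 2))) ∨
        r * (tan ((b (2 * j + 3) - b (2 * j + 2)) / 2) +
          sin ((b (2 * j + 2) - b (2 * j + 1)) / 2)) ≤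
          -(r * (tan ((b (2 * i + 1) - b (2 * i)) / 2) +
          sin ((b (2 * i + 2) - b (2 * i + 1)) / 2)))))
    have lo1 := hlow (2 * i)
    have lo2 := hlow (2 * j)
    have up1 := hup (2 * i + 3) (by omega)
    have up2 := hup (2 * j + 3) (by omega)
    have hsmall : b (2 * j + 3) - b (2 * j) < π := by
      rcases hz1 j hjN with h | h
      · rcases hz2 j hjN with h' | h'
        · linarith
        · linarith
      · rcases hz3 j hjN with h' | h'
        · linarith
        · linarith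
    have cs : ∀ x y : ℝ, (x = y ∨ x = y + 2 * π ∨ y = x + 2 * π) → cos x = cos y ∧ sin x = sin y := by
      intro x y h
      rcases h with rfl | rfl | rfl
      · exact ⟨rfl, rfl⟩
      · exact ⟨cos_add_two_pi _, sin_add_two_pi _⟩
      · exact ⟨(cos_add_two_pi _).symm, (sin_add_two_pi _).symm⟩
    rcases Nat.lt_or_gt_of_ne hij' with hlt | hgt
    · have m1 : b (2 * i + 2) ≤ b (2 * j) := hb (by omega)
      have m2 : b (2 * i + 3) ≤ b (2 * j + 1) := hb (by omega)
      by_cases hX : b (2 * j + 2) ≤ b (2 * i + 2)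
      · by_cases hH : b (2 * i + 1) < b (2 * i + 2)
        · right; left
          refine after_lt hr (by linarith) jL2 (by linarith) iL
            (by linarith) (by linarith) (Or.inl ⟨hH, ?_⟩)
          show b (2 * j + 2) < b (2 * j + 3)
          linarith
        · right; right
          have hT : (b (2 * i + 1) + b (2 * i + 2)) / 2 = (b (2 * j + 1) + b (2 * j + 2)) / 2 := by
            linarith
          refine ⟨(cs _ _ (Or.inl hT)).1, (cs _ _ (Or.inl hT)).2,
            hQQ _ _ (cs _ _ (Or.inl hT)).1 (cs _ _ (Or.inl hT)).2, Or.inl ?_⟩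
          have z1 : b (2 * i + 3) - b (2 * i + 2) = 0 := by linarith
          have z2 : b (2 * i + 2) - b (2 * i + 1) = 0 := by linarith
          have z3 : b (2 * j + 1) - b (2 * j) = 0 := by linarith
          have z4 : b (2 * j + 2) - b (2 * j + 1) = 0 := by linarith
          simp only [z1, z2, z3, z4]; simp
      · push Not at hX
        by_cases hY : b (2 * j + 3) < b (2 * i + 1) + 2 * π
        · right; left
          exact after_lt hr (by linarith) jL2 (by linarith) iL
            (by linarith) (by linarith) (Or.inr ⟨hX, hY⟩)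
        · push Not at hY
          by_cases hZ : b (2 * i + 2) < b (2 * j) ∧ b (2 * j + 1) < b (2 * i + 1) + 2 * π
          · left
            exact after_lt hr (by linarith) jL0 (by linarith) iL
              (by linarith) (by linarith) (Or.inr hZ)
          · by_cases hW : b (2 * j + 1) < b (2 * i + 1) + 2 * π
            · exfalso
              have : b (2 * j) ≤ b (2 * i + 2) := by
                by_contra hcon
                push Not at hcon
                exact hZ ⟨hcon, hW⟩
              linarith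
            · push Not at hW
              by_cases hH : b (2 * i + 1) < b (2 * i + 2)
              · left
                refine after_lt hr (by linarith) jL0 (by linarith) iL
                  (by linarith) (by linarith) (Or.inl ⟨hH, ?_⟩)
                show b (2 * j) < b (2 * j + 1)
                linarith
              · right; right
                have hT : (b (2 * j + 1) + b (2 * j + 2)) / 2 =
                    (b (2 * i + 1) + b (2 * i + 2)) / 2 + 2 * π := by
                  linarith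
                have hc' := cs ((b (2 * i + 1) + b (2 * i + 2)) / 2)
                  ((b (2 * j + 1) + b (2 * j + 2)) / 2) (Or.inr (Or.inr hT))
                refine ⟨hc'.1, hc'.2, hQQ _ _ hc'.1 hc'.2, Or.inr ?_⟩
                have z1 : b (2 * j + 3) - b (2 * j + 2) = 0 := by linarith
                have z2 : b (2 * i + 2) - b (2 * i + 1) = 0 := by linarith
                have z3 : b (2 * i + 1) - b (2 * i) = 0 := by linarith
                have z4 : b (2 * j + 2) - b (2 * j + 1) = 0 := by linarith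
                simp only [z1, z2, z3, z4]; simp
    · have m1 : b (2 * j + 3) ≤ b (2 * i + 1) := hb (by omega)
      have m2 : b (2 * j + 2) ≤ b (2 * i) := hb (by omega)
      by_cases hX : b (2 * i + 1) ≤ b (2 * j + 1)
      · by_cases hH : b (2 * i + 1) < b (2 * i + 2)
        · left
          refine before_lt hr (by linarith) jL0 (by linarith) iL
            (by linarith) (by linarith) (Or.inl ⟨hH, ?_⟩)
          show b (2 * j) < b (2 * j + 1)
          linarith
        · right; right
          have hT : (b (2 * i + 1) + b (2 * i + 2)) / 2 = (b (2 * j + 1) + b (2 * j + 2)) / 2 := by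
            linarith
          refine ⟨(cs _ _ (Or.inl hT)).1, (cs _ _ (Or.inl hT)).2,
            hQQ _ _ (cs _ _ (Or.inl hT)).1 (cs _ _ (Or.inl hT)).2, Or.inr ?_⟩
          have z1 : b (2 * j + 3) - b (2 * j + 2) = 0 := by linarith
          have z2 : b (2 * i + 2) - b (2 * i + 1) = 0 := by linarith
          have z3 : b (2 * i + 1) - b (2 * i) = 0 := by linarith
          have z4 : b (2 * j + 2) - b (2 * j + 1) = 0 := by linarith
          simp only [z1, z2, z3, z4]; simp
      · push Not at hX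
        by_cases hY : b (2 * i + 2) < b (2 * j) + 2 * π
        · left
          exact before_lt hr (by linarith) jL0 (by linarith) iL
            (by linarith) (by linarith) (Or.inr ⟨hX, hY⟩)
        · push Not at hY
          by_cases hZ : b (2 * j + 3) < b (2 * i + 1) ∧ b (2 * i + 2) < b (2 * j + 2) + 2 * π
          · right; left
            exact before_lt hr (by linarith) jL2 (by linarith) iL
              (by linarith) (by linarith) (Or.inr hZ)
          · by_cases hW : b (2 * i + 2) < b (2 * j + 2) + 2 * π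
            · exfalso
              have : b (2 * i + 1) ≤ b (2 * j + 3) := by
                by_contra hcon
                push Not at hcon
                exact hZ ⟨hcon, hW⟩
              linarith
            · push Not at hW
              by_cases hH : b (2 * i + 1) < b (2 * i + 2)
              · right; left
                refine before_lt hr (by linarith) jL2 (by linarith) iL (by linarith) (by linarith) (Or.inl ⟨hH, ?_⟩)
                show b (2 * j + 2) < b (2 * j + 3)
                linarith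
              · right; right
                have hT : (b (2 * i + 1) + b (2 * i + 2)) / 2 =
                    (b (2 * j + 1) + b (2 * j + 2)) / 2 + 2 * π := by
                  linarith
                have hc' := cs ((b (2 * i + 1) + b (2 * i + 2)) / 2)
                  ((b (2 * j + 1) + b (2 * j + 2)) / 2) (Or.inr (Or.inl hT))
                refine ⟨hc'.1, hc'.2, hQQ _ _ hc'.1 hc'.2, Or.inl ?_⟩
                have z1 : b (2 * i + 3) - b (2 * i + 2) = 0 := by linarith
                have z2 : b (2 * i + 2) - b (2 * i + 1) = 0 := by linarith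
                have z3 : b (2 * j + 1) - b (2 * j) = 0 := by linarith
                have z4 : b (2 * j + 2) - b (2 * j + 1) = 0 := by linarith
                simp only [z1, z2, z3, z4]; simp

lemma pol_mem_ball {r : ℝ} (hr : 0 < r) (t : ℝ) : pol r t ∈ Metric.closedBall (0 : Plane) r := by
  rw [Metric.mem_closedBall]
  have h := Pool.Agent.V7H47.TC.dist_sq (pol r t) 0
  have h2 : dist (pol r t) 0 ^ 2 = r ^ 2 := by
    rw [h]
    show (r * cos t - 0) ^ 2 + (r * sin t - 0) ^ 2 = r ^ 2
    linear_combination r ^ 2 * cos_sq_add_sin_sq t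
  exact le_of_sq_le_sq h2.le hr.le

/-- the ends of the arcs -/
noncomputable def bb (A0 A1 A2 A3 A4 A5 A6 : ℝ) (m : ℕ) : ℝ :=
  if m < 3 then A0 else if m < 6 then A1 else if m < 9 then A2 else if m < 12 then A3 else
    if m < 15 then A4 else if m < 18 then A5 else A6

end Pool.Agent.V7H47.LB.N

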